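import Pool.Agent.Helper17.FQ.Th
import Pool.Agent.Helper45.FQ.Loc6

/-!
# Project FQ (MP_0f6f3f_an), layer REP: the laws `θ` are limits of averages of rows

`LC`: lemma C, the gaps of `w₁ σ(x) h σ(y)⁻¹ w₂` for `w₁`, `w₂` in the positive chamber. `good_set`: off probability `ε` the gaps of `a(w^n, x) l a(w^m, z)` are those of `l`, plus `n + m` at the node `u`, up to `C(ε)`.
`tn_rep`, `rep`: the field `rep` of `KL.Sand` for `θ = th μ a E (D.ea (Pi.single u 1))`.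
-/

set_option autoImplicit false
set_option linter.unusedSectionVars false

open MeasureTheory Filter Topology
open scoped ENNReal Pointwise

namespace Pool.Agent.Helper42.FQ

open Pool.Agent.Helper84 Pool.Agent.Helper84.GN Pool.Agent.Helper84.GN.S3 Pool.Agent.Helper84.GN.S3.X
open Pool.Agent.Helper84.NI Pool.Agent.Helper84.GVN Pool.Agent.Helper90.RK
open Pool.Agent.Helper96.RK Pool.Agent.Helper66.FR Pool.Agent.Helper84.FR Pool.Agent.Helper55.FR
open Pool.Agent.Helper85.KL Pool.Agent.Helper84.GDL Pool.Agent.Helper45.FQ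
open Pool.Agent.Helper17.FQ (pm pm_eq pm_nonneg pm_le_one abs_pm tn tn_eq int_tn th abs_sa_tn_le ulr_le_of)
open Pool.Agent.Helper52.FQ (sa sa_mono norm_sa_le')

variable {G1 X G Λ ι : Type} [Group G1] [TopologicalSpace G1] [IsTopologicalGroup G1] [SecondCountableTopology G1] [LocallyCompactSpace G1]
  [T2Space G1] [MeasurableSpace G1] [BorelSpace G1] [MeasurableSpace X] [MulAction G1 X] [MeasurableConstSMul G1 X] [Group G] [Group Λ] [Countable Λ]
  {μ : Measure X} [SMulInvariantMeasure G1 X μ] [IsProbabilityMeasure μ] {a : Cocy G1 X Λ} {E : Emb Λ G} {j : Λ →* G1} {hm : Measure G1} {σ : X → G1}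
  [Fintype ι] [DecidableEq ι] {D : GD G1 ι}

/-- Lemma C. -/
def LC (μ : Measure X) (D : GD G1 ι) (σ : X → G1) : Prop := ∀ e : ℝ, 0 < e → ∃ C : ℝ, 0 ≤ C ∧ ∀ h : G1,
  (μ.prod μ).real {y | ¬ ∀ c c' : ι → ℝ, (∀ i, 0 ≤ c i) → (∀ i, 0 ≤ c' i) →
    ∀ v, |D.mu (D.ea c * (σ y.1 * h * (σ y.2)⁻¹) * D.ea c') v - (D.mu h v + c v + c' v)| ≤ C} ≤ e

theorem ea_pow (D : GD G1 ι) (u : ι) (n : ℕ) : D.ea (Pi.single u 1) ^ n = D.ea (Pi.single u (n : ℝ)) := by
  induction n with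
  | zero => rw [pow_zero, Nat.cast_zero, Pi.single_zero, D.ea_zero]
  | succ n ih => rw [pow_succ, ih, ← D.ea_add, ← Pi.single_add, Nat.cast_succ]

/-- **The gaps of `a(w^n, x) l a(w^m, z)`.** -/
theorem good_set (h : HC μ a.a j hm σ) (hL : LC μ D σ) (u : ι) {ε : ℝ} (hε : 0 < ε) :
    ∃ C : ℝ, 0 ≤ C ∧ ∀ (l : Λ) (n m : ℕ), ∃ B : Set (X × X), MeasurableSet B ∧ (μ.prod μ).real B ≤ ε ∧ ∀ p, p ∉ B →
      ∀ v, |D.mu (j (a.a (D.ea (Pi.single u 1) ^ n) p.1 * l * a.a (D.ea (Pi.single u 1) ^ m) p.2)) v -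
        (D.mu (j l) v + Pi.single (M := fun _ : ι => ℝ) u ((n : ℝ) + m) v)| ≤ C := by
  obtain ⟨K, hK, hKm⟩ := Pool.Agent.Helper85.FQ.tight_sigma (ν := μ) h.ms (ε := ε / 3) (by positivity)
  obtain ⟨R, hR0, hR⟩ := D.mu_shift (B := K ∪ K⁻¹) (hK.union hK.inv)
  obtain ⟨C₁, hC₁, h1⟩ := hL (ε / 3) (by positivity)
  refine ⟨R + C₁, by positivity, fun l n m => ?_⟩
  obtain ⟨w, hw⟩ : ∃ w, w = D.ea (Pi.single u 1) := ⟨_, rfl⟩
  rw [← hw]
  set Bad : Set (X × X) := {y | ¬ ∀ c c' : ι → ℝ, (∀ i, 0 ≤ c i) → (∀ i, 0 ≤ c' i) →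
    ∀ v, |D.mu (D.ea c * (σ y.1 * j l * (σ y.2)⁻¹) * D.ea c') v - (D.mu (j l) v + c v + c' v)| ≤ C₁} with hBad
  have m1 : MeasurableSet {x | σ x ∉ K} := (h.ms hK.isClosed.measurableSet).compl
  have mp : MeasurePreserving (fun p : X × X => (p.1, w ^ m • p.2)) (μ.prod μ) (μ.prod μ) :=
    (MeasurePreserving.id μ).prod (measurePreserving_smul (w ^ m) μ)
  refine ⟨(((fun x => w ^ n • x) ⁻¹' {x | σ x ∉ K}) ×ˢ Set.univ) ∪ (Set.univ ×ˢ {x | σ x ∉ K}) ∪
    (fun p : X × X => (p.1, w ^ m • p.2)) ⁻¹' (toMeasurable (μ.prod μ) Bad), ?_, ?_, ?_⟩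
  · exact ((((measurable_const_smul (w ^ n)) m1).prod MeasurableSet.univ).union (MeasurableSet.univ.prod m1)).union
      (mp.measurable (measurableSet_toMeasurable _ _))
  · have e1 : (μ.prod μ).real (((fun x => w ^ n • x) ⁻¹' {x | σ x ∉ K}) ×ˢ Set.univ) = μ.real {x | σ x ∉ K} := by
      rw [measureReal_prod_prod, probReal_univ, mul_one]
      unfold Measure.real
      rw [measure_preimage_smul]
    have e2 : (μ.prod μ).real (Set.univ ×ˢ {x | σ x ∉ K}) = μ.real {x | σ x ∉ K} := by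
      rw [measureReal_prod_prod, probReal_univ, one_mul]
    have e3 : (μ.prod μ).real ((fun p : X × X => (p.1, w ^ m • p.2)) ⁻¹' (toMeasurable (μ.prod μ) Bad)) = (μ.prod μ).real Bad := by
      unfold Measure.real
      rw [mp.measure_preimage (measurableSet_toMeasurable _ _).nullMeasurableSet, measure_toMeasurable]
    refine (measureReal_union_le _ _).trans ?_
    have e4 := measureReal_union_le (μ := μ.prod μ) (((fun x => w ^ n • x) ⁻¹' {x | σ x ∉ K}) ×ˢ Set.univ) (Set.univ ×ˢ {x | σ x ∉ K})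
    rw [e3]
    rw [e1, e2] at e4
    linarith [h1 (j l)]
  · intro p hp v
    simp only [Set.mem_union, Set.mem_prod, Set.mem_univ, and_true, true_and, Set.mem_preimage, not_or] at hp
    obtain ⟨⟨hp1, hp2⟩, hp3⟩ := hp
    have hp1' : σ (w ^ n • p.1) ∈ K := not_not.1 hp1
    have hp2' : σ p.2 ∈ K := not_not.1 hp2
    have hp3' : (p.1, w ^ m • p.2) ∉ Bad := fun hc => hp3 (subset_toMeasurable _ _ hc)
    rw [hBad, Set.mem_ofPred_eq, not_not] at hp3'
    have h2 := hp3' (Pi.single u (n : ℝ)) (Pi.single u (m : ℝ)) (fun i => by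
      by_cases hi : i = u
      · rw [hi, Pi.single_eq_same]
        positivity
      · simp [hi]) (fun i => by
      by_cases hi : i = u
      · rw [hi, Pi.single_eq_same]
        positivity
      · simp [hi]) v
    rw [← ea_pow, ← ea_pow, ← hw] at h2
    have e : j (a.a (w ^ n) p.1 * l * a.a (w ^ m) p.2) =
        (σ (w ^ n • p.1))⁻¹ * (w ^ n * (σ p.1 * j l * (σ (w ^ m • p.2))⁻¹) * w ^ m) * σ p.2 := by
      have c1 := h.coc (w ^ n) p.1
      have c2 := h.coc (w ^ m) p.2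
      have c1' : j (a.a (w ^ n) p.1) = (σ (w ^ n • p.1))⁻¹ * (w ^ n * σ p.1) := by rw [c1, inv_mul_cancel_left]
      have c2' : j (a.a (w ^ m) p.2) = (σ (w ^ m • p.2))⁻¹ * (w ^ m * σ p.2) := by rw [c2, inv_mul_cancel_left]
      rw [map_mul, map_mul, c1', c2']
      group
    have h3 := hR (σ (w ^ n • p.1))⁻¹ (Or.inr (Set.inv_mem_inv.2 hp1')) (σ p.2) (Or.inl hp2')
      (w ^ n * (σ p.1 * j l * (σ (w ^ m • p.2))⁻¹) * w ^ m) v
    rw [← e] at h3
    have h4 : D.mu (j l) v + Pi.single (M := fun _ : ι => ℝ) u ((n : ℝ) + m) v =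
        D.mu (j l) v + Pi.single (M := fun _ : ι => ℝ) u (n : ℝ) v + Pi.single (M := fun _ : ι => ℝ) u (m : ℝ) v := by
      rw [Pi.single_add, Pi.add_apply, add_assoc]
    rw [h4]
    have h5 := abs_sub_le (D.mu (j (a.a (w ^ n) p.1 * l * a.a (w ^ m) p.2)) v)
      (D.mu (w ^ n * (σ p.1 * j l * (σ (w ^ m • p.2))⁻¹) * w ^ m) v)
      (D.mu (j l) v + Pi.single (M := fun _ : ι => ℝ) u (n : ℝ) v + Pi.single (M := fun _ : ι => ℝ) u (m : ℝ) v)
    linarith

theorem pm_mass (S : Set G) (l : Λ) : pm E S l = mass (pE E l) S := pm_eq S l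

/-- **REP** before the limit. -/
theorem tn_rep (h : HC μ a.a j hm σ) (hL : LC μ D σ) (u : ι) {ε : ℝ} (hε : 0 < ε) :
    ∃ C : ℝ, 0 ≤ C ∧ ∀ (l : Λ) (L δ : ℝ) (S : Set G),
      (∀ l', nr (fun l => D.mu (j l)) u C l l' → L ≤ D.mu (j l') u → mass (pE E l') S ≤ δ) →
      ∃ N₀ : ℕ, ∀ n m, N₀ ≤ n → N₀ ≤ m → tn μ a (D.ea (Pi.single u 1)) l (pm E S) n m ≤ δ + ε := by
  obtain ⟨C, hC, h1⟩ := good_set (μ := μ) (a := a) h hL u (ε := min ε (1 / 2)) (lt_min hε (by norm_num))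
  refine ⟨C, hC, fun l L δ S hS => ?_⟩
  obtain ⟨N₀, hN₀⟩ := exists_nat_ge (L + C)
  refine ⟨N₀, fun n m hn hm' => ?_⟩
  obtain ⟨B, hB, hBm, hBg⟩ := h1 l n m
  have hn' : (N₀ : ℝ) ≤ n := by exact_mod_cast hn
  have hgood : ∀ p, p ∉ B → pm E S (a.a (D.ea (Pi.single u 1) ^ n) p.1 * l * a.a (D.ea (Pi.single u 1) ^ m) p.2) ≤ δ := by
    intro p hp
    have h2 := hBg p hp
    rw [pm_mass]
    refine hS _ (fun v hv => ?_) ?_
    · have h3 := h2 v
      have e : Pi.single (M := fun _ : ι => ℝ) u ((n : ℝ) + m) v = 0 := by simp [hv]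
      rw [e, add_zero, abs_sub_comm] at h3
      exact h3
    · have h3 := h2 u
      rw [Pi.single_eq_same, abs_le] at h3
      have h4 := D.mu_nonneg (j l) u
      have h5 : (0 : ℝ) ≤ m := Nat.cast_nonneg m
      linarith [h3.1]
  have hδ : 0 ≤ δ := by
    by_contra hcon
    push Not at hcon
    have h2 : B = Set.univ := by
      rw [Set.eq_univ_iff_forall]
      intro p
      by_contra hp
      have h3 := hgood p hp
      linarith [pm_nonneg (E := E) S (a.a (D.ea (Pi.single u 1) ^ n) p.1 * l * a.a (D.ea (Pi.single u 1) ^ m) p.2)]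
    rw [h2, probReal_univ] at hBm
    have h3 := min_le_right ε (1 / 2 : ℝ)
    linarith
  rw [tn_eq (abs_pm S)]
  have h2 : ∀ p : X × X, pm E S (a.a (D.ea (Pi.single u 1) ^ n) p.1 * l * a.a (D.ea (Pi.single u 1) ^ m) p.2) ≤
      δ + B.indicator (fun _ => (1 : ℝ)) p := by
    intro p
    by_cases hp : p ∈ B
    · rw [Set.indicator_of_mem hp]
      linarith [pm_le_one (E := E) S (a.a (D.ea (Pi.single u 1) ^ n) p.1 * l * a.a (D.ea (Pi.single u 1) ^ m) p.2)]
    · rw [Set.indicator_of_notMem hp, add_zero]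
      exact hgood p hp
  have h3 : Integrable (fun p : X × X => δ + B.indicator (fun _ => (1 : ℝ)) p) (μ.prod μ) :=
    (integrable_const _).add ((integrable_const _).indicator hB)
  refine (integral_mono (int_tn (abs_pm S) n m) h3 h2).trans ?_
  rw [integral_add (integrable_const _) ((integrable_const _).indicator hB), integral_const, integral_indicator hB, setIntegral_const]
  simp only [probReal_univ, smul_eq_mul, mul_one]
  linarith [min_le_left ε (1 / 2 : ℝ)]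

/-- **REP**: the field `rep` of `KL.Sand`. -/
theorem rep (h : HC μ a.a j hm σ) (hL : LC μ D σ) (u : ι) : ∀ ε : ℝ, ε > 0 → ∃ C : ℝ, ∀ (l : Λ) (L δ : ℝ) (S : Set G),
    (∀ l', nr (fun l => D.mu (j l)) u C l l' → L ≤ D.mu (j l') u → mass (pE E l') S ≤ δ) →
    th μ a E (D.ea (Pi.single u 1)) l S ≤ δ + ε := by
  intro ε hε
  obtain ⟨C, hC, h1⟩ := tn_rep (μ := μ) (a := a) (E := E) h hL u hε
  refine ⟨C, fun l L δ S hS => ?_⟩
  obtain ⟨N₀, hN₀⟩ := h1 l L δ S hS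
  refine ulr_le_of (abs_sa_tn_le (abs_pm S)) ?_
  filter_upwards [eventually_ge_atTop (max N₀ 1)] with N hN
  have h2 : N ≠ 0 := by
    have := (le_max_right N₀ 1).trans hN
    omega
  rw [← Pool.Agent.Helper52.FQ.sa_const ℝ (δ + ε) h2]
  exact sa_mono fun n m hn hm' => hN₀ n m ((le_max_left _ _).trans (hN.trans hn)) ((le_max_left _ _).trans (hN.trans hm'))

end Pool.Agent.Helper42.FQ
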