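import Pool.Agent.Helper17.FQ.Th
import Pool.Agent.Helper52.FQ.Th

/-!
# Project FQ (MP_0f6f3f_an): the two definitions of the laws `θ` agree

`ms_tn`: helper52's `ms .. S (uv E l)` is helper17's `tn .. l (pm E S)`. `th_eq`: helper17's `th` is helper52's `th` for the hyperfilter.
-/

set_option autoImplicit false
set_option linter.unusedSectionVars false

open MeasureTheory Filter Topology
open scoped ENNReal

namespace Pool.Agent.Helper42.FQ

open Pool.Agent.Helper84 Pool.Agent.Helper84.GN Pool.Agent.Helper84.GN.S3 Pool.Agent.Helper84.GN.S3.X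
open Pool.Agent.Helper84.NI Pool.Agent.Helper84.GVN Pool.Agent.Helper90.RK
open Pool.Agent.Helper96.RK Pool.Agent.Helper66.FR Pool.Agent.Helper84.FR Pool.Agent.Helper55.FR
open Pool.Agent.Helper45.FQ (HC pE)
open Pool.Agent.Helper85.KL (mass)
open Pool.Agent.Helper17.FQ (pm pm_eq pm_nonneg pm_le_one abs_pm tn tn_eq int_tn abs_sa_tn_le ulr_le_of)
open Pool.Agent.Helper52.FQ (sa sa_mono ms uv ms_pE th_dl th_sum)

variable {G1 X G Λ : Type} [Group G1] [TopologicalSpace G1] [IsTopologicalGroup G1] [SecondCountableTopology G1] [LocallyCompactSpace G1]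
  [MeasurableSpace G1] [BorelSpace G1] [MeasurableSpace X] [MulAction G1 X]
  [MeasurableConstSMul G1 X] [Group G] [Group Λ] [Countable Λ] {μ : Measure X} [SMulInvariantMeasure G1 X μ]
  [IsProbabilityMeasure μ] {a : Cocy G1 X Λ} {E : Emb Λ G} {w : G1} {l : Λ} {S : Set G}

theorem ms_tn : ms μ a E w S (uv E l) = tn μ a w l (pm E S) := by
  funext n m
  rw [ms_pE]
  unfold tn
  simp only [pm_eq]
  rfl

theorem th_eq : Pool.Agent.Helper17.FQ.th μ a E w l S = Pool.Agent.Helper52.FQ.th μ a E w (hyperfilter ℕ) l S := by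
  unfold Pool.Agent.Helper17.FQ.th Pool.Agent.Helper52.FQ.th
  rw [ms_tn]
  rfl

end Pool.Agent.Helper42.FQ
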