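import Pool.Agent.Helper17.FQ.Dd
import Pool.Agent.Helper20.FQ.Typ
import Pool.Agent.Helper20.FQ.Match

/-!
# Project FQ (MP_0f6f3f_an): the laws `θ` are tight off the node

`cell_type`: for `g` in the big cell the vectors `V_{w^n g w^m} 1` have the type of `w^n`, `n, m → ∞`. `tight_th`: if `w^n` has the type `i` then every law `th μ a E w l` is tight for the gaps different from `i`.
-/

set_option autoImplicit false
set_option linter.unusedSectionVars false

open MeasureTheory Filter Topology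
open scoped ENNReal Pointwise

namespace Pool.Agent.Helper42.FQ

open Pool.Agent.Helper84 Pool.Agent.Helper84.GN Pool.Agent.Helper84.GN.S3 Pool.Agent.Helper84.GN.S3.X
open Pool.Agent.Helper84.NI Pool.Agent.Helper84.GVN Pool.Agent.Helper90.RK
open Pool.Agent.Helper96.RK Pool.Agent.Helper66.FR Pool.Agent.Helper84.FR Pool.Agent.Helper55.FR
open Pool.Agent.Helper45.FQ (HC)
open Pool.Agent.Helper17.FQ (pm pm_nonneg pm_le_one pm_mono abs_pm tn th abs_sa_tn_le ulr_le_of mf ff abs_mf_le abs_ff_le meas_mf meas_ff cg int_cg int_sig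
  WH dd)
open Pool.Agent.Helper52.FQ (sa sa_mono norm_sa_le' sigma_hm Unq)
open Pool.Agent.Helper20.FQ (IsType TightN)
open Pool.Agent.Helper9.FQ (one mass_int)
open Pool.Agent.Helper43.FQ (Gp)

variable {G1 X G Λ : Type} [Group G1] [TopologicalSpace G1] [IsTopologicalGroup G1] [SecondCountableTopology G1] [LocallyCompactSpace G1]
  [MeasurableSpace G1] [BorelSpace G1] [MeasurableSpace X] [MulAction G1 X] [MeasurableConstSMul G1 X] [Group G] [Group Λ] [Countable Λ]
  {μ : Measure X} [SMulInvariantMeasure G1 X μ] [IsProbabilityMeasure μ] {a : Cocy G1 X Λ} {E : Emb Λ G} {j : Λ →* G1} {hm : Measure G1} {σ : X → G1}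
  {w : G1} {r : ℕ} {A : Gp G r} {i : Fin r}

/-- In the big cell the type is the same. -/
theorem cell_type (h3 : Tendsto (fun g : G1 => μ {x | a.a g x ≠ 1}) (𝓝 1) (𝓝 0)) (hty : IsType μ a E A (fun n : ℕ => w ^ n) atTop i) {g : G1}
    (hg : ∃ p l q : G1, g = p * l * q ∧ Tendsto (fun n : ℕ => w ^ n * p * (w ^ n)⁻¹) atTop (𝓝 1) ∧ w * l = l * w ∧
      Tendsto (fun n : ℕ => (w ^ n)⁻¹ * q * w ^ n) atTop (𝓝 1)) :
    IsType μ a E A (fun x : ℕ × ℕ => w ^ x.1 * g * w ^ x.2) (atTop ×ˢ atTop) i := by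
  obtain ⟨p, l, q, rfl, hp, hl, hq⟩ := hg
  obtain ⟨K, hK, hK1⟩ := exists_compact_mem_nhds (1 : G1)
  have h1 : Tendsto (fun x : ℕ × ℕ => x.1 + x.2) (atTop ×ˢ atTop) atTop :=
    tendsto_atTop_mono (fun x => Nat.le_add_right _ _) tendsto_fst
  have h2 := (hty.comp h1).two_sided (K := K * {l} ∪ K) h3 ((hK.mul isCompact_singleton).union hK)
    (k := fun x => w ^ x.1 * p * (w ^ x.1)⁻¹ * l) (k' := fun x => (w ^ x.2)⁻¹ * q * w ^ x.2)
    (by
      filter_upwards [(hp.comp (tendsto_fst (f := (atTop : Filter ℕ)) (g := (atTop : Filter ℕ)))).eventually hK1] with x hx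
      exact Or.inl ⟨_, hx, l, rfl, rfl⟩)
    (by
      filter_upwards [(hq.comp (tendsto_snd (f := (atTop : Filter ℕ)) (g := (atTop : Filter ℕ)))).eventually hK1] with x hx
      exact Or.inr hx)
  refine h2.congr' (Eventually.of_forall fun x => ?_)
  have h4 : l * w ^ x.1 = w ^ x.1 * l := ((show Commute w l from hl).pow_left x.1).symm.eq
  change w ^ x.1 * p * (w ^ x.1)⁻¹ * l * w ^ (x.1 + x.2) * ((w ^ x.2)⁻¹ * q * w ^ x.2) = w ^ x.1 * (p * l * q) * w ^ x.2
  rw [pow_add]
  have h5 : w ^ x.1 * p * (w ^ x.1)⁻¹ * l * (w ^ x.1 * w ^ x.2) * ((w ^ x.2)⁻¹ * q * w ^ x.2) =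
      w ^ x.1 * p * (w ^ x.1)⁻¹ * (l * w ^ x.1) * q * w ^ x.2 := by group
  rw [h5, h4]
  group

/-- The elements with a large gap off the node. -/
def Off (A : Gp G r) (i : Fin r) (R : ℝ) : Set G := {k | ∃ v, v ≠ i ∧ R < A.gap k v}

theorem off_anti {R R' : ℝ} (h : R ≤ R') : Off A i R' ⊆ Off A i R := fun _ ⟨v, hv, hk⟩ => ⟨v, hv, lt_of_le_of_lt h hk⟩

theorem mf_off (S : Set G) (g : G1) : mf μ a (pm E S) g = Pool.Agent.Helper9.FQ.mass μ a E S g := (mass_int S g).symm

theorem off_of_type {I : Type} {f : I → G1} {fl : Filter I} (h : IsType μ a E A f fl i) {β : ℝ} (hβ : 0 < β) :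
    ∃ R : ℕ, ∀ᶠ x in fl, mf μ a (pm E (Off A i R)) (f x) ≤ β := by
  obtain ⟨R, hR⟩ := h β hβ
  refine ⟨R, ?_⟩
  filter_upwards [hR 0] with x hx
  rw [mf_off]
  have h1 : Off A i (R : ℝ) ⊆ (one A i R 0)ᶜ := by
    rintro k ⟨v, hv, hk⟩ hc
    exact absurd hk (not_lt.2 (hc.2 v hv))
  have h2 := Pool.Agent.Helper9.FQ.mass_mono (μ := μ) (a := a) (E := E) h1 (f x)
  have h3 := Pool.Agent.Helper9.FQ.mass_compl (μ := μ) (a := a) (E := E) (one A i R 0) (f x)
  linarith

/-- The elements for which the sandwiches are not yet tight at the scale `R`. -/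
def Bd (μ : Measure X) (a : Cocy G1 X Λ) (E : Emb Λ G) (w : G1) (A : Gp G r) (i : Fin r) (β : ℝ) (R : ℕ) : Set G1 :=
  {g | ¬ ∃ N₀ : ℕ, ∀ n m : ℕ, N₀ ≤ n → N₀ ≤ m → mf μ a (pm E (Off A i R)) (w ^ n * g * w ^ m) ≤ β}

theorem bd_meas (h : HC μ a.a j hm σ) (β : ℝ) (R : ℕ) : MeasurableSet (Bd μ a E w A i β R) := by
  have e : Bd μ a E w A i β R = (⋃ N₀ : ℕ, ⋂ n : ℕ, ⋂ m : ℕ, ⋂ (_ : N₀ ≤ n), ⋂ (_ : N₀ ≤ m),
      {g | mf μ a (pm E (Off A i R)) (w ^ n * g * w ^ m) ≤ β})ᶜ := by
    ext g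
    simp only [Bd, Set.mem_ofPred_eq, Set.mem_compl_iff, Set.mem_iUnion, Set.mem_iInter]
  rw [e]
  refine (MeasurableSet.iUnion fun N₀ => MeasurableSet.iInter fun n => MeasurableSet.iInter fun m => MeasurableSet.iInter fun _ =>
    MeasurableSet.iInter fun _ => ?_).compl
  exact measurableSet_le ((meas_mf h _).comp ((measurable_const_mul _).mul_const _)) measurable_const

theorem bd_anti (β : ℝ) {R R' : ℕ} (hR : R ≤ R') : Bd μ a E w A i β R' ⊆ Bd μ a E w A i β R := by
  rintro g hg ⟨N₀, hN⟩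
  refine hg ⟨N₀, fun n m hn hm' => le_trans ?_ (hN n m hn hm')⟩
  rw [mf_off, mf_off]
  exact Pool.Agent.Helper9.FQ.mass_mono (off_anti (by exact_mod_cast hR)) _

/-- **The laws are tight off the node.** -/
theorem tight_th (h : HC μ a.a j hm σ) (hU : Unq j σ) (h3 : Tendsto (fun g : G1 => μ {x | a.a g x ≠ 1}) (𝓝 1) (𝓝 0)) (hw : WH μ a hm w)
    (hty : IsType μ a E A (fun n : ℕ => w ^ n) atTop i) (l : Λ) : TightN A.gap i (th μ a E w l) := by
  have := sigma_hm h
  intro ε hε
  obtain ⟨β, hβ⟩ : ∃ β, β = ε / 4 := ⟨_, rfl⟩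
  have hβ0 : 0 < β := by rw [hβ]; positivity
  have cg0 : ∀ g, 0 ≤ cg μ a l g := fun g => ENNReal.toReal_nonneg
  have hcg := int_cg (l := l) h
  -- the scale
  have h4 : Tendsto (fun R : ℕ => ∫ g, (Bd μ a E w A i β R).indicator (cg μ a l) g ∂hm) atTop (𝓝 (∫ _, (0 : ℝ) ∂hm)) := by
    refine tendsto_integral_of_dominated_convergence (cg μ a l) (fun R => (hcg.indicator (bd_meas h β R)).aestronglyMeasurable) hcg
      (fun R => ae_of_all _ fun g => ?_) ?_
    · by_cases hg : g ∈ Bd μ a E w A i β R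
      · rw [Set.indicator_of_mem hg, Real.norm_of_nonneg (cg0 g)]
      · rw [Set.indicator_of_notMem hg, norm_zero]
        exact cg0 g
    · filter_upwards [hw.cell] with g hg
      obtain ⟨R₀, hR₀⟩ := off_of_type (cell_type h3 hty hg) hβ0
      have h5 : g ∉ Bd μ a E w A i β R₀ := by
        rw [Bd, Set.mem_ofPred_eq, not_not]
        rw [Filter.eventually_prod_iff] at hR₀
        obtain ⟨pa, ha, pb, hb, hab⟩ := hR₀
        obtain ⟨Na, hNa⟩ := eventually_atTop.1 ha
        obtain ⟨Nb, hNb⟩ := eventually_atTop.1 hb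
        exact ⟨max Na Nb, fun n m hn hm' => hab (hNa n ((le_max_left _ _).trans hn)) (hNb m ((le_max_right _ _).trans hm'))⟩
      refine (tendsto_const_nhds (x := (0 : ℝ))).congr' ?_
      filter_upwards [eventually_ge_atTop R₀] with R hR
      rw [Set.indicator_of_notMem fun hc => h5 (bd_anti β hR hc)]
  rw [integral_zero] at h4
  obtain ⟨R, hR⟩ := (h4.eventually (gt_mem_nhds hβ0)).exists
  refine ⟨R, ?_⟩
  obtain ⟨S, hS⟩ : ∃ S, S = Off A i R := ⟨_, rfl⟩
  change th μ a E w l (Off A i R) ≤ ε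
  rw [← hS]
  obtain ⟨F, hF⟩ : ∃ F : ℕ → G1 → ℝ, F = ff μ a w (pm E S) := ⟨_, rfl⟩
  have F0 : ∀ N g, |F N g| ≤ 1 := fun N g => by
    rw [hF]
    exact abs_ff_le (abs_pm S) N g
  have Fm : ∀ N, Measurable (F N) := fun N => by
    rw [hF]
    exact meas_ff h _ N
  have F1 : ∀ g, g ∉ Bd μ a E w A i β R → ∀ᶠ N in atTop, F N g ≤ β := by
    intro g hg
    rw [Bd, Set.mem_ofPred_eq, not_not] at hg
    obtain ⟨N₀, hN⟩ := hg
    filter_upwards [eventually_ge_atTop (max N₀ 1)] with N hN1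
    have h2 : N ≠ 0 := by
      have := (le_max_right N₀ 1).trans hN1
      omega
    rw [hF, ← Pool.Agent.Helper52.FQ.sa_const ℝ β h2, hS]
    unfold ff
    exact sa_mono fun n m hn hm' => hN n m ((le_max_left _ _).trans (hN1.trans hn)) ((le_max_left _ _).trans (hN1.trans hm'))
  -- the positive part off the bad set
  have h5 : Tendsto (fun N : ℕ => ∫ g, cg μ a l g * (Bd μ a E w A i β R)ᶜ.indicator (fun g => max (F N g - β) 0) g ∂hm) atTop (𝓝 (∫ _, (0 : ℝ) ∂hm)) := by
    have m1 : ∀ N, Measurable ((Bd μ a E w A i β R)ᶜ.indicator (fun g => max (F N g - β) 0)) := fun N =>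
      (((Fm N).sub measurable_const).max measurable_const).indicator (bd_meas h β R).compl
    refine tendsto_integral_of_dominated_convergence (cg μ a l) (fun N => hcg.aestronglyMeasurable.mul (m1 N).aestronglyMeasurable) hcg
      (fun N => ae_of_all _ fun g => ?_) (ae_of_all _ fun g => ?_)
    · rw [norm_mul, Real.norm_of_nonneg (cg0 g)]
      refine mul_le_of_le_one_right (cg0 g) ?_
      by_cases hg : g ∈ (Bd μ a E w A i β R)ᶜ
      · rw [Set.indicator_of_mem hg, Real.norm_of_nonneg (le_max_right _ _)]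
        exact max_le (by linarith [(abs_le.1 (F0 N g)).2]) zero_le_one
      · rw [Set.indicator_of_notMem hg, norm_zero]
        exact zero_le_one
    · by_cases hg : g ∈ (Bd μ a E w A i β R)ᶜ
      · refine (tendsto_const_nhds (x := (0 : ℝ))).congr' ?_
        filter_upwards [F1 g hg] with N hN
        rw [Set.indicator_of_mem hg, max_eq_right (by linarith), mul_zero]
      · refine (tendsto_const_nhds (x := (0 : ℝ))).congr fun N => ?_
        rw [Set.indicator_of_notMem hg, mul_zero]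
  rw [integral_zero] at h5
  have hone : ∫ g, cg μ a l g ∂hm = 1 := by
    have h6 := int_sig (l := l) h (F := fun _ => (1 : ℝ)) measurable_const (C := 1) (fun _ => by simp)
    simpa using h6.symm
  have h6 := dd h hU (abs_pm (E := E) S) h3 hw l
  have h7 := h5.eventually (gt_mem_nhds hβ0)
  have h8 := h6.eventually (gt_mem_nhds hβ0)
  refine ulr_le_of (abs_sa_tn_le (abs_pm S)) ?_
  filter_upwards [h7, h8] with N h9 h10
  rw [int_sig h (meas_ff h _ N) (abs_ff_le (abs_pm S) N), ← hF] at h10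
  have m1 : Measurable ((Bd μ a E w A i β R)ᶜ.indicator (fun g => max (F N g - β) 0)) :=
    (((Fm N).sub measurable_const).max measurable_const).indicator (bd_meas h β R).compl
  have i1 : Integrable (fun g => cg μ a l g * (Bd μ a E w A i β R)ᶜ.indicator (fun g => max (F N g - β) 0) g) hm := by
    refine hcg.mul_bdd (c := 1) m1.aestronglyMeasurable (ae_of_all _ fun g => ?_)
    by_cases hg : g ∈ (Bd μ a E w A i β R)ᶜ
    · rw [Set.indicator_of_mem hg, Real.norm_of_nonneg (le_max_right _ _)]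
      exact max_le (by linarith [(abs_le.1 (F0 N g)).2]) zero_le_one
    · rw [Set.indicator_of_notMem hg, norm_zero]
      exact zero_le_one
  have i2 : Integrable (fun g => β * cg μ a l g) hm := hcg.const_mul _
  have i3 : Integrable ((Bd μ a E w A i β R).indicator (cg μ a l)) hm := hcg.indicator (bd_meas h β R)
  have i4 : Integrable (fun g => cg μ a l g * F N g) hm :=
    hcg.mul_bdd (c := 1) (Fm N).aestronglyMeasurable (ae_of_all _ fun g => F0 N g)
  have h11 : ∫ g, cg μ a l g * F N g ∂hm ≤ ∫ g, (β * cg μ a l g + ((Bd μ a E w A i β R).indicator (cg μ a l) g +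
      cg μ a l g * (Bd μ a E w A i β R)ᶜ.indicator (fun g => max (F N g - β) 0) g)) ∂hm := by
    refine integral_mono i4 (i2.add (i3.add i1)) fun g => ?_
    simp only
    by_cases hg : g ∈ Bd μ a E w A i β R
    · have hg' : g ∉ (Bd μ a E w A i β R)ᶜ := fun hc => hc hg
      rw [Set.indicator_of_mem hg, Set.indicator_of_notMem hg']
      have := (abs_le.1 (F0 N g)).2
      nlinarith [cg0 g]
    · rw [Set.indicator_of_notMem hg, Set.indicator_of_mem (show g ∈ (Bd μ a E w A i β R)ᶜ from hg)]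
      have := le_max_left (F N g - β) 0
      nlinarith [cg0 g]
  have h12 : ∫ g, (β * cg μ a l g + ((Bd μ a E w A i β R).indicator (cg μ a l) g +
      cg μ a l g * (Bd μ a E w A i β R)ᶜ.indicator (fun g => max (F N g - β) 0) g)) ∂hm =
      β + (∫ g, (Bd μ a E w A i β R).indicator (cg μ a l) g ∂hm +
        ∫ g, cg μ a l g * (Bd μ a E w A i β R)ᶜ.indicator (fun g => max (F N g - β) 0) g ∂hm) := by
    have i5 : Integrable (fun g => (Bd μ a E w A i β R).indicator (cg μ a l) g +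
      cg μ a l g * (Bd μ a E w A i β R)ᶜ.indicator (fun g => max (F N g - β) 0) g) hm := i3.add i1
    rw [integral_add i2 i5, integral_add i3 i1, integral_const_mul, hone, mul_one]
  rw [h12] at h11
  rw [hβ] at *
  linarith

end Pool.Agent.Helper42.FQ
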